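import Mathlib
import Pool.Agent.Helper11.Dr.Types
import Pool.Agent.Helper11.SpanTypes

/-!
# Anisotropic pieces of cohomology relative to a subfield: definitions
-/

universe u v w t

open CategoryTheory TensorProduct

namespace Pool.Agent.Helper11.Ro

open Pool.Agent.Helper10 SmProjVar Pool.Agent.Helper11.Obs

section Linear

variable {K : Type v} [Field K] (F : Subfield K) {M : Type w} [AddCommGroup M] [Module K M]

/-- The subspace `G` is stable under `u`, and its eigenvalues on `G` (in an algebraic closure
of `K`) are the roots of a nonzero polynomial with coefficients in the subfield `F` of `K`: the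
characteristic polynomial of `u` on `G` has the same irreducible factors over `K` as some polynomial
`q` with coefficients in `F`. (If `F = K` this only says that `G` is stable.) -/
def HasEigenvaluesOver (u : M → M) (G : Submodule K M) : Prop :=
  ∃ (m : ℕ) (b : Module.Basis (Fin m) K G) (ρ : Matrix (Fin m) (Fin m) K) (q : Polynomial F)
    (N : ℕ), (∀ j, u (b j) = ∑ i, ρ i j • (b i : M)) ∧ ρ.charpoly ∣ q.map F.subtype ∧
      q.map F.subtype ∣ ρ.charpoly ^ N

end Linear

variable {k : Type u} [Field k] {K : Type v} [Field K] (W : CohomologyData.{u, v, w} k K)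

/-- If a nonzero `F`-linear combination `z` of classes of algebraic cycles in `H(Y)` and its multiple
`a • z`, where `a ∈ K` is algebraic over `F`, both are `F`-linear combinations of classes of
algebraic cycles, then `a ∈ F`. (This is no condition if `F` is algebraically closed in `K`.) -/
def HasRationalMultiples (F : Subfield K) (Y : SmProjVar k) : Prop :=
  ∀ z ∈ cycleSpan W F Y, z ≠ 0 → ∀ a : K, IsAlgebraic F a → a • z ∈ cycleSpan W F Y → a ∈ F

/-- The subspace `E` of `H(V)` is a piece over `F` of the cohomology of `V`: all its elements have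
even degree, or all have odd degree, and some algebraic correspondence with coefficients in `F` acts
on `H(V)` as the orthogonal projector to `E` (for the Poincaré duality pairing). -/
structure IsPieceOver (F : Subfield K) (V : SmProjVar k) (E : Submodule K (W.H V)) : Prop where
  parity : ∃ p, E ≤ parityPart W V p
  projector : ∃ u : W.H V → W.H V, IsMapOver W F V u ∧
    ∀ y, u y ∈ E ∧ ∀ x ∈ E, W.pairing V x (u y) = W.pairing V x y

section Invariant

variable {P : ℕ} (V : Fin P → SmProjVar k) (E : Subspaces W V)

/-- The subspace `G` of `E c` is invariant: it is stable under all maps induced by algebraic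
correspondences which stabilise `E c`, and under all symmetries of the cohomology theory, with
coefficients in any extension of `K`, which stabilise the `E c'`. -/
structure IsInvariant (c : Fin P) (G : Submodule K (W.H (V c))) : Prop where
  correspondences : ∀ u : W.H (V c) → W.H (V c), W.IsAlgebraicMap (V c) (V c) u →
    (∀ y ∈ E c, u y ∈ E c) → ∀ y ∈ G, u y ∈ G
  symmetries : ∀ (Ω : Type t) [Field Ω] [Algebra K Ω]
    (g : ∀ X : SmProjVar k, Ω ⊗[K] W.H X → Ω ⊗[K] W.H X) (χ : Ω), IsSymmetry W Ω g χ →
    (∀ c', Stabilises Ω (g (V c')) (E c')) → Stabilises Ω (g (V c)) G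

/-- The subspaces `E c` of the `H(V c)` are anisotropic over `F`: for all `c`, the only totally
isotropic invariant subspace `G` of `E c` such that for all maps `u` induced by algebraic
correspondences with coefficients in `F` which stabilise `E c`, the eigenvalues of `u` on `G` are
the roots of a polynomial with coefficients in `F`, is `0`. -/
def AreAnisotropicOver (F : Subfield K) : Prop :=
  ∀ c, ∀ G ≤ E c, IsInvariant.{u, v, w, t} W V E c G → IsTotallyIsotropic W (V c) G →
    (∀ u : W.H (V c) → W.H (V c), IsMapOver W F (V c) u → (∀ y ∈ E c, u y ∈ E c) →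
      HasEigenvaluesOver F u G) → G = ⊥

end Invariant

section Determinant

variable (X : SmProjVar k) {P : ℕ} {V : Fin P → SmProjVar k} (E : Subspaces W V)
  (G : ∀ c : Fin P, ℕ → Submodule K (W.H (V c)))

/-- The determinant of the flags `G c` is given by a numerically trivial class with coefficients in
`F` (see `HasNumTrivialDeterminant`). -/
def HasNumTrivialDeterminantOver (F : Subfield K) : Prop :=
  ∃ (N m b l : ℕ) (r : Fin P × Fin N → ℕ) (f : ∀ y : Fin P × Fin N, Fin (r y) → W.H (V y.1))
    (e : (Σ y : Fin m × Fin P × Fin N, Fin (r y.2)) ≃ Fin b)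
    (z : W.H (wordVar X V l fun q => (e.symm q).1.2.1)) (x : W.H (power X l)),
    0 < m ∧ (∀ c, G c N = ⊥) ∧
    (∀ y, LinearIndependent K (f y) ∧ Submodule.span K (Set.range (f y)) = G y.1 y.2) ∧
    IsNumTrivial W _ z ∧ z ∈ cycleSpan W F _ ∧
    ∀ v : (∀ q : (Σ y : Fin m × Fin P × Fin N, Fin (r y.2)), W.H (V q.1.2.1)),
      (∀ q, v q ∈ E q.1.2.1) → W.pairing _ z (extProd W x fun q => v (e.symm q)) =
        ∏ y, Matrix.det (Matrix.of fun s t => W.pairing (V y.2.1) (v ⟨y, s⟩) (f y.2 t))

end Determinant

section Words

variable {P : ℕ} (V : Fin P → SmProjVar k) (E : Subspaces W V)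

/-- `y` is a word on `T`: the product of (finitely many, possibly zero) pull-backs, under morphisms
from `T`, of elements of the subspaces `E c` of `H(V c)`. -/
def IsWordIn (T : SmProjVar k) (y : W.H T) : Prop :=
  ∃ (b : ℕ) (c : Fin b → Fin P) (f : ∀ i, T.toOver ⟶ (V (c i)).toOver) (v : ∀ i, W.H (V (c i))),
    (∀ i, v i ∈ E (c i)) ∧ y = (List.ofFn fun i => W.pull (f i) (v i)).prod

/-- `H(Y)` is spanned by the images, under maps `H(T) → H(Y)` induced by algebraic
correspondences, of words on `T`. -/
def IsSpanned (Y : SmProjVar k) : Prop :=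
  Submodule.span K {y | ∃ (T : SmProjVar k) (u : W.H T → W.H Y) (x : W.H T),
    W.IsAlgebraicMap T Y u ∧ IsWordIn W V E T x ∧ y = u x} = ⊤

end Words

end Pool.Agent.Helper11.Ro
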