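import Mathlib
import Pool.Agent.Helper11.Dt.St.T13
import Pool.Agent.Helper11.RatNorm

/-!
# Contractions of tensors given by algebraic classes with coefficients in a subfield, as traces
-/

set_option linter.unusedSectionVars false

universe u v w t

open CategoryTheory Finset

namespace Pool.Agent.Helper11.Ro

open Pool.Agent.Helper10 hiding IsAlgAut parityPart
open SmProjVar SPre Pool.Agent.Helper10.GIT Pool.Agent.Helper11.Iso Pool.Agent.Helper11.Can

variable {k : Type u} [Field k] {K : Type t} [Field K] {Ω : Type v} [Field Ω] [Algebra K Ω]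
  {S : SPre.{u, v, w, t} k K Ω} {P : ℕ} {d : Fin P → ℕ} {V : Fin P → SmProjVar k}

/-- products of elements of `I` -/
lemma intStr_ofFn {I : IntStr S} (h1 : ∀ X, (1 : S.H X) ∈ I.A X) {Z : SmProjVar k} {m : ℕ}
    {x : Fin m → S.H Z} (hx : ∀ i, x i ∈ I.A Z) : (List.ofFn x).prod ∈ I.A Z := by
  induction m with
  | zero => rw [List.ofFn_zero, List.prod_nil]; exact h1 Z
  | succ m ih =>
    rw [List.ofFn_succ, List.prod_cons]
    exact I.mul_mem _ _ _ (hx 0) (ih fun i => hx i.succ)

/-- the factor of the product given by a pair of positions is in `I` -/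
lemma intStr_ent {I : IntStr S} {e : ∀ c, Fin (d c) → S.H (V c)} {B : Mats d Ω}
    (heI : ∀ c, ∑ a, ∑ b, B c a b • S.ext (V c) (V c) (e c a) (e c b) ∈ I.A ((V c).prod (V c)))
    {T : SmProjVar k} (c c₀ c₁ : Fin P)
    (g₀ : T.toOver ⟶ (V c₀).toOver) (g₁ : T.toOver ⟶ (V c₁).toOver) :
    ∑ v : Fin (d c₀), ∑ v' : Fin (d c₁), ent c (B c) (⟨c₀, v⟩ : Let d) ⟨c₁, v'⟩ •
      (S.pull g₀ (e c₀ v) * S.pull g₁ (e c₁ v')) ∈ I.A T := by
  by_cases h0 : c₀ = c
  · by_cases h1 : c₁ = c
    · subst h0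
      subst h1
      have h2 := I.pull_mem (SmProjVar.lift g₀ g₁) _ (heI c₁)
      rw [map_sum (S.pull _)] at h2
      convert h2 using 1
      refine Finset.sum_congr rfl fun v _ => ?_
      rw [map_sum (S.pull _)]
      refine Finset.sum_congr rfl fun v' _ => ?_
      rw [C4.ent_self, map_smul (S.pull _), SPre.ext, map_mul (S.pull _), pull_pull, pull_pull,
        lift_fst, lift_snd]
    · rw [Finset.sum_eq_zero]
      · exact (I.A T).zero_mem
      · intro v _
        refine Finset.sum_eq_zero fun v' _ => ?_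
        rw [C4.ent_right _ h1, zero_smul]
  · rw [Finset.sum_eq_zero]
    · exact (I.A T).zero_mem
    · intro v _
      refine Finset.sum_eq_zero fun v' _ => ?_
      rw [C4.ent_left _ h0, zero_smul]

/-- As `Dt.pform_eq_tr`, for classes `ρ r` in `I`: then `ζ` is in `I`. -/
theorem pform_eq_tr (𝓘 : IntStr S) (h1A : ∀ X, (1 : S.H X) ∈ 𝓘.A X)
    {e : ∀ c, Fin (d c) → S.H (V c)} {B : Mats d Ω}
    (he : ∀ c, Piece S (V c) (d c) (e c) (B c))
    (heI : ∀ c, ∑ a, ∑ b, B c a b • S.ext (V c) (V c) (e c a) (e c b) ∈ 𝓘.A ((V c).prod (V c)))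
    {I : Type} [Fintype I] {χ : I → Shape P}
    {J : Type} [Fintype J] (cl : J → Fin P) (σ : J × Fin 2 ≃ Pos χ) {s : ℕ}
    (ε : Fin (s + 1) ≃ I) (T X : I → SmProjVar k) (p : ∀ r, (T r).toOver ⟶ (X r).toOver)
    (f : ∀ r, ∀ i : Fin (χ r).1, (T r).toOver ⟶ (V ((χ r).2 i)).toOver)
    (ρ : ∀ r, S.H (T r)) (hρ : ∀ r, ρ r ∈ S.alg (T r)) (hρI : ∀ r, ρ r ∈ 𝓘.A (T r))
    (r₀ : I) (hr₀ : S.rad (T r₀) (ρ r₀))
    (qx : I → Bool) :
    ∃ (T' : SmProjVar k) (π : ∀ r, T'.toOver ⟶ (T r).toOver) (ζ : S.H T') (c : ℤ),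
      S.rad T' ζ ∧ ζ ∈ 𝓘.A T' ∧ ∀ x : ∀ r, S.H (X r),
        (∀ r, if qx r then x r ∈ S.od (X r) else x r ∈ S.ev (X r)) →
        pform B cl σ (fun r => ctens S e (p r) (f r) (ρ r) (x r)) =
          c • S.tr T' (ζ * (List.ofFn fun j => S.pull (π (ε j) ≫ p (ε j)) (x (ε j))).prod) := by
  classical
  have hq : ∀ c, ∃ q : Bool, ∀ b, if q then e c b ∈ S.od (V c) else e c b ∈ S.ev (V c) := by
    intro c
    rcases (he c).parity with h | h
    · exact ⟨false, fun b => by simpa using h b⟩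
    · exact ⟨true, fun b => by simpa using h b⟩
  choose qc hqc using hq
  -- enumerations
  let φ : Fin (Fintype.card J) ≃ J := (Fintype.equivFin J).symm
  obtain ⟨T', X', π₀, q, hX', htr, hext⟩ := exists_prodT (S := S) (𝒳 := fun _ => True)
    (fun _ _ _ _ => trivial) (fun j => T (ε j)) (fun j => X (ε j)) (fun j => trivial)
    (fun j => p (ε j))
  obtain ⟨π, hπ⟩ : ∃ π : ∀ r, T'.toOver ⟶ (T r).toOver, ∀ j, π (ε j) = π₀ j :=
    ⟨Equiv.piCongrLeft (fun r => (T'.toOver ⟶ (T r).toOver)) ε π₀, fun j =>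
      Equiv.piCongrLeft_apply_apply _ _ _ _⟩
  obtain rfl : π₀ = fun j => π (ε j) := funext fun j => (hπ j).symm
  clear hπ hext
  have htr' : ∀ y : ∀ r, S.H (T r),
      ∏ r, S.tr (T r) (y r) = S.tr T' (List.ofFn fun j => S.pull (π (ε j)) (y (ε j))).prod := by
    intro y
    rw [htr (fun j => y (ε j)), Equiv.prod_comp ε (fun r => S.tr (T r) (y r))]
  -- reordering
  let σ' : Fin (Fintype.card J) × Fin 2 ≃ Pos χ := (φ.prodCongr (Equiv.refl _)).trans σ
  let par : I ⊕ Pos χ → Bool := Sum.elim qx fun y => qc ((χ y.1).2 y.2)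
  let sg : I ⊕ Pos χ → I ⊕ Pos χ → ℤ := fun y y' => if par y && par y' then -1 else 1
  obtain ⟨c, hc, hre⟩ := exists_reorder (S.H T') ε (b := fun r => (χ r).1) σ' sg (fun y y' => by
    by_cases h : (par y && par y') = true
    · exact .inr (if_pos h)
    · exact .inl (if_neg h))
  let L' : (∀ r, Word d (χ r)) → Pos χ → S.H T' := fun W y =>
    S.pull (π y.1) (S.pull (f y.1 y.2) (e _ (W y.1 y.2)))
  -- the coefficient
  set R : S.H T' := (List.ofFn fun j => S.pull (π (ε j)) (ρ (ε j))).prod with hR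
  have hRrad : S.rad T' R := by
    refine C4.rad_ofFn (fun j => S.pull_mem _ _ (hρ _)) (ε.symm r₀) ?_
    refine rad_pull _ ?_
    rw [ε.apply_symm_apply]
    exact hr₀
  -- the sum over all words
  let Λ : Pos χ → Let d → S.H T' := fun y l => S.pull (π y.1)
    (if h : l.1 = (χ y.1).2 y.2 then S.pull (f y.1 y.2) (e _ (h ▸ l.2)) else 0)
  have hΛ : ∀ (y : Pos χ) (v : Fin (d ((χ y.1).2 y.2))), Λ y ⟨_, v⟩ =
      S.pull (π y.1) (S.pull (f y.1 y.2) (e _ v)) := fun y v => by
    change S.pull (π y.1) (dite _ _ _) = _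
    rw [dif_pos rfl]
  have h3 := sum_pairs (Ω := Ω) σ' (fun y l l' => ent (cl (φ y)) (B (cl (φ y))) l l') Λ
  have h4 : ∑ W : ∀ r, Word d (χ r),
        (∏ y : Fin (Fintype.card J), ent (cl (φ y)) (B (cl (φ y))) (ltp W (σ' (y, 0)))
          (ltp W (σ' (y, 1)))) •
        (List.ofFn fun y : Fin (Fintype.card J) =>
          L' W (σ' (y, 0)) * L' W (σ' (y, 1))).prod ∈ S.alg T' := by
    have h5 : ∑ W : ∀ r, Word d (χ r),
        (∏ y : Fin (Fintype.card J), ent (cl (φ y)) (B (cl (φ y))) (ltp W (σ' (y, 0)))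
          (ltp W (σ' (y, 1)))) •
        (List.ofFn fun y : Fin (Fintype.card J) =>
          L' W (σ' (y, 0)) * L' W (σ' (y, 1))).prod =
        ∑ W : ∀ r, Word d (χ r),
        (∏ y : Fin (Fintype.card J), ent (cl (φ y)) (B (cl (φ y))) (ltp W (σ' (y, 0)))
          (ltp W (σ' (y, 1)))) •
        (List.ofFn fun y : Fin (Fintype.card J) =>
          Λ (σ' (y, 0)) (ltp W (σ' (y, 0))) * Λ (σ' (y, 1)) (ltp W (σ' (y, 1)))).prod := by
      refine Finset.sum_congr rfl fun W _ => ?_
      congr 3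
      funext y
      have h6 : ∀ y : Pos χ, Λ y (ltp W y) = L' W y := fun y => hΛ y (W y.1 y.2)
      rw [h6, h6]
    rw [h5, h3]
    refine TZ.alg_ofFn fun y => ?_
    have h6 := C4.alg_ent he (cl (φ y)) _ _ (π (σ' (y, 0)).1 ≫ f (σ' (y, 0)).1 (σ' (y, 0)).2)
      (π (σ' (y, 1)).1 ≫ f (σ' (y, 1)).1 (σ' (y, 1)).2)
    convert h6 using 1
    refine Finset.sum_congr rfl fun v _ => Finset.sum_congr rfl fun v' _ => ?_
    rw [hΛ, hΛ, pull_pull, pull_pull]
  have h4I : ∑ W : ∀ r, Word d (χ r),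
        (∏ y : Fin (Fintype.card J), ent (cl (φ y)) (B (cl (φ y))) (ltp W (σ' (y, 0)))
          (ltp W (σ' (y, 1)))) •
        (List.ofFn fun y : Fin (Fintype.card J) =>
          L' W (σ' (y, 0)) * L' W (σ' (y, 1))).prod ∈ 𝓘.A T' := by
    have h5 : ∑ W : ∀ r, Word d (χ r),
        (∏ y : Fin (Fintype.card J), ent (cl (φ y)) (B (cl (φ y))) (ltp W (σ' (y, 0)))
          (ltp W (σ' (y, 1)))) •
        (List.ofFn fun y : Fin (Fintype.card J) =>
          L' W (σ' (y, 0)) * L' W (σ' (y, 1))).prod =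
        ∑ W : ∀ r, Word d (χ r),
        (∏ y : Fin (Fintype.card J), ent (cl (φ y)) (B (cl (φ y))) (ltp W (σ' (y, 0)))
          (ltp W (σ' (y, 1)))) •
        (List.ofFn fun y : Fin (Fintype.card J) =>
          Λ (σ' (y, 0)) (ltp W (σ' (y, 0))) * Λ (σ' (y, 1)) (ltp W (σ' (y, 1)))).prod := by
      refine Finset.sum_congr rfl fun W _ => ?_
      congr 3
      funext y
      have h6 : ∀ y : Pos χ, Λ y (ltp W y) = L' W y := fun y => hΛ y (W y.1 y.2)
      rw [h6, h6]
    rw [h5, h3]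
    refine intStr_ofFn h1A fun y => ?_
    have h6 := intStr_ent heI (cl (φ y)) _ _
      (π (σ' (y, 0)).1 ≫ f (σ' (y, 0)).1 (σ' (y, 0)).2)
      (π (σ' (y, 1)).1 ≫ f (σ' (y, 1)).1 (σ' (y, 1)).2)
    convert h6 using 1
    refine Finset.sum_congr rfl fun v _ => Finset.sum_congr rfl fun v' _ => ?_
    rw [hΛ, hΛ, pull_pull, pull_pull]
  have hRI : R ∈ 𝓘.A T' := by
    rw [hR]
    exact intStr_ofFn h1A fun j => 𝓘.pull_mem _ _ (hρI _)
  set a : S.H T' := ∑ W : ∀ r, Word d (χ r),
        (∏ y : Fin (Fintype.card J), ent (cl (φ y)) (B (cl (φ y))) (ltp W (σ' (y, 0)))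
          (ltp W (σ' (y, 1)))) •
        (List.ofFn fun y : Fin (Fintype.card J) =>
          L' W (σ' (y, 0)) * L' W (σ' (y, 1))).prod with ha
  refine ⟨T', π, R * a, c, rad_mul hRrad h4, 𝓘.mul_mem _ _ _ hRI h4I, fun x hqx => ?_⟩
  let L : (∀ r, Word d (χ r)) → I ⊕ Pos χ → S.H T' := fun W =>
    Sum.elim (fun r => S.pull (π r) (S.pull (p r) (x r))) (L' W)
  have hL : ∀ W y y', L W y * L W y' = sg y y' • (L W y' * L W y) := by
    intro W
    have hpar : ∀ y, if par y then L W y ∈ S.od T' else L W y ∈ S.ev T' := by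
      rintro (r | y)
      · have h := hqx r
        change if qx r then _ else _
        cases hh : qx r with
        | false =>
          rw [hh] at h
          exact S.pull_ev _ _ (S.pull_ev _ _ (by simpa using h))
        | true =>
          rw [hh] at h
          exact S.pull_od _ _ (S.pull_od _ _ (by simpa using h))
      · have h := hqc ((χ y.1).2 y.2) (W y.1 y.2)
        change if qc ((χ y.1).2 y.2) then _ else _
        cases hh : qc ((χ y.1).2 y.2) with
        | false =>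
          rw [hh] at h
          exact S.pull_ev _ _ (S.pull_ev _ _ (by simpa using h))
        | true =>
          rw [hh] at h
          exact S.pull_od _ _ (S.pull_od _ _ (by simpa using h))
    intro y y'
    have h1 := hpar y
    have h2 := hpar y'
    change _ = (if par y && par y' then (-1 : ℤ) else 1) • _
    cases hy : par y with
    | false =>
      rw [hy] at h1
      rw [Bool.false_and, if_neg (by simp), one_smul]
      exact S.ev_comm _ _ _ (by simpa using h1)
    | true =>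
      rw [hy] at h1
      have h1' : L W y ∈ S.od T' := by simpa using h1
      cases hy' : par y' with
      | false =>
        rw [hy'] at h2
        rw [Bool.true_and, if_neg (by simp), one_smul]
        exact (S.ev_comm _ _ _ (by simpa using h2)).symm
      | true =>
        rw [hy'] at h2
        have h2' : L W y' ∈ S.od T' := by simpa using h2
        rw [Bool.true_and, if_pos rfl, neg_one_zsmul]
        exact S.od_anti _ _ _ h1' h2'
  set Q : S.H T' := (List.ofFn fun j => S.pull (π (ε j) ≫ p (ε j)) (x (ε j))).prod with hQ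
  have hQ' : (List.ofFn fun j : Fin (s + 1) =>
      S.pull (π (ε j)) (S.pull (p (ε j)) (x (ε j)))).prod = Q := by
    rw [hQ]
    congr 2
    funext j
    rw [pull_pull]
  have h1 : ∀ W : ∀ r, Word d (χ r), ∏ r, ctens S e (p r) (f r) (ρ r) (x r) (W r) =
      c • S.tr T' (R * Q * (List.ofFn fun y : Fin (Fintype.card J) =>
        L' W (σ' (y, 0)) * L' W (σ' (y, 1))).prod) := by
    intro W
    have h2 : (List.ofFn fun j => S.pull (π (ε j)) (ρ (ε j) * S.pull (p (ε j)) (x (ε j)) *
        wd S e (f (ε j)) (W (ε j)))).prod = R * (c • (Q *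
        (List.ofFn fun y : Fin (Fintype.card J) =>
        L' W (σ' (y, 0)) * L' W (σ' (y, 1))).prod)) := by
      have h4 := hre (L W) (hL W)
      have h5 : (List.ofFn fun j : Fin (s + 1) => L W (.inl (ε j))).prod = Q := hQ'
      rw [h5] at h4
      change _ = R * (c • (Q * (List.ofFn fun y : Fin (Fintype.card J) =>
        L W (.inr (σ' (y, 0))) * L W (.inr (σ' (y, 1)))).prod))
      rw [← h4, hR, ← C4.ofFn_mul_central]
      · congr 2
        funext j
        rw [mul_assoc, map_mul (S.pull _), map_mul (S.pull _)]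
        congr 2
        rw [wd, map_list_prod, List.map_ofFn]
        rfl
      · intro j y
        exact S.ev_comm _ _ _ (S.pull_ev _ _ (S.alg_le_ev _ (hρ _)))
    have h3 := htr' (fun r => ρ r * S.pull (p r) (x r) * wd S e (f r) (W r))
    rw [h2] at h3
    refine h3.trans ?_
    rw [mul_smul_comm, map_zsmul, mul_assoc]
  have h2 : pform B cl σ (fun r => ctens S e (p r) (f r) (ρ r) (x r)) =
      c • S.tr T' (R * Q * a) := by
    unfold pform
    rw [ha, Finset.mul_sum, map_sum, Finset.smul_sum]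
    refine Finset.sum_congr rfl fun W _ => ?_
    rw [h1 W, mul_smul_comm, mul_smul_comm, map_smul, smul_eq_mul]
    congr 2
    rw [← Equiv.prod_comp φ]
    rfl
  rw [h2, mul_assoc, ← S.ev_comm T' a _ (S.alg_le_ev _ h4), ← mul_assoc]

end Pool.Agent.Helper11.Ro
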