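import Mathlib
import Pool.Agent.Helper11.Dt.Coh
import Pool.Agent.Helper11.Ro.Kpiece

/-!
# Contractions with decomposable tensors are given by numerically trivial cycle classes
-/

universe u v w t

open CategoryTheory TensorProduct Finset

namespace Pool.Agent.Helper11.Ro

open Pool.Agent.Helper10 hiding IsAlgAut parityPart
open SmProjVar SPre Pool.Agent.Helper10.GIT Pool.Agent.Helper11.Iso Pool.Agent.Helper11.Can
open Pool.Agent.Helper11.Obs (IsPiece IsNumTrivial extProd wordClass prodVar prodFst prodProj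
  power wordVar)
open Pool.Agent.Helper11.Dt hiding pform_eq_tr pform_kten_eq pform_eq_tr_word

variable {k : Type u} [Field k] {K : Type v} [Field K] [CharZero K]
  (W : WeilCohomology.{u, v, w} k K)

section

variable {P : ℕ} {d : Fin P → ℕ} {V : Fin P → SmProjVar k}

/-- The contraction of tensors given by algebraic classes with decomposable tensors, as a trace. -/
theorem pform_eq_tr_word {F : Subfield K} {X : SmProjVar k}
    {E : ∀ c, Submodule K (W.H (V c))}
    (hE : ∀ c, IsPiece W.toCohomologyData (V c) (E c)) (e : ∀ c, Fin (d c) → W.H (V c))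
    (heE : ∀ c b, e c b ∈ E c) {B : Mats d K}
    (he : ∀ c, Piece (W.toSPre K) (V c) (d c) (fun b => Obs.one W K (e c b)) (B c))
    (heI : ∀ c, ∑ a, ∑ b, B c a b • (W.toSPre K).ext (V c) (V c) (Obs.one W K (e c a))
      (Obs.one W K (e c b)) ∈ (relStr W F K).A ((V c).prod (V c)))
    {I : Type} [Fintype I] {χ : I → Can.Shape P} {m : ℕ} {χ' : Can.Shape P} {S : Type} [Fintype S]
    (cl : S → Fin P) (σ : S × Fin 2 ≃ Pos (sumShape χ (m + 1) χ')) (T A : I → SmProjVar k)
    (hA : ∀ r, PowLike X (A r)) (p : ∀ r, (T r).toOver ⟶ (A r).toOver)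
    (f : ∀ r, ∀ i : Fin (χ r).1, (T r).toOver ⟶ (V ((χ r).2 i)).toOver)
    (ρ : ∀ r, W.H (T r)) (hρ : ∀ r, ρ r ∈ cycleSpan W.toCohomologyData F (T r)) (r₀ : I)
    (hr₀ : IsNumTrivial W.toCohomologyData (T r₀) (ρ r₀)) (x : ∀ r, W.H (A r))
    (hx : ∀ r, x r ∈ W.evK (A r) ∨ x r ∈ W.odK (A r)) :
    ∃ (T' : SmProjVar k) (l : ℕ) (q : T'.toOver ⟶ (power X l).toOver) (x' : W.H (power X l))
      (ζ : W.H T') (g : ∀ (_ : Fin (m + 1)) (i : Fin χ'.1), T'.toOver ⟶ (V (χ'.2 i)).toOver)
      (c : K), IsNumTrivial W.toCohomologyData T' ζ ∧ ζ ∈ cycleSpan W.toCohomologyData F T' ∧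
      ∀ v : ∀ (_ : Fin (m + 1)) (i : Fin χ'.1), W.H (V (χ'.2 i)),
        (∀ j i, v j i ∈ E (χ'.2 i)) →
        pform B cl σ (sumTen (fun r => kten W e (p r) (f r) (ρ r) (x r))
          fun j w => ∏ i, W.pairing (V (χ'.2 i)) (v j i) (e (χ'.2 i) (w i))) =
        c * W.tr T' (ζ * (W.pull q x' * (List.ofFn fun j =>
          (List.ofFn fun i => W.pull (g j i) (v j i)).prod).prod)) := by
  classical
  obtain ⟨x₀, εc, q₀, hx₀, hη⟩ := exists_eta_slot W X hE e heE χ'
  set Tη : SmProjVar k := prodVar X fun i => V (χ'.2 i) with hTη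
  -- the data on the sum
  let TT : I ⊕ Fin (m + 1) → SmProjVar k := Sum.elim T fun _ => Tη
  let AA : I ⊕ Fin (m + 1) → SmProjVar k := Sum.elim A fun _ => Tη
  let pp : ∀ r, (TT r).toOver ⟶ (AA r).toOver := fun r => match r with
    | .inl r => p r
    | .inr _ => 𝟙 Tη.toOver
  let ff : ∀ r, ∀ i : Fin (sumShape χ (m + 1) χ' r).1,
      (TT r).toOver ⟶ (V ((sumShape χ (m + 1) χ' r).2 i)).toOver := fun r => match r with
    | .inl r => f r
    | .inr _ => prodProj X fun i => V (χ'.2 i)
  let ρρ : ∀ r, W.H (TT r) := fun r => match r with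
    | .inl r => ρ r
    | .inr _ => (1 : W.H Tη)
  have hqx : ∀ r, ∃ q : Bool, if q then x r ∈ W.odK (A r) else x r ∈ W.evK (A r) := by
    intro r
    rcases hx r with h | h
    · exact ⟨false, by simpa using h⟩
    · exact ⟨true, by simpa using h⟩
  choose qx hqx using hqx
  let ε : Fin ((Fintype.card I + m) + 1) ≃ I ⊕ Fin (m + 1) :=
    (finSumFinEquiv (m := Fintype.card I) (n := m + 1)).symm.trans
      (Equiv.sumCongr (Fintype.equivFin I).symm (Equiv.refl _))
  obtain ⟨T', π, ζ, c, hζ, hζF, hform⟩ := pform_kten_eq W e he heI cl σ (s := Fintype.card I + m) ε TT AA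
    pp ff ρρ (fun r => match r with
      | .inl r => hρ r
      | .inr _ => one_mem_cycleSpan W F Tη) (.inl r₀) hr₀ (Sum.elim qx fun _ => q₀)
  -- the classes on retracts of powers
  let AX : I ⊕ Fin (m + 1) → SmProjVar k := Sum.elim A fun _ => X
  let pX : ∀ r, T'.toOver ⟶ (AX r).toOver := fun r => match r with
    | .inl r => π (.inl r) ≫ p r
    | .inr j => π (.inr j) ≫ prodFst X fun i => V (χ'.2 i)
  let xX : ∀ r, W.H (AX r) := fun r => match r with
    | .inl r => x r
    | .inr _ => x₀
  obtain ⟨A', q', x', hA', hpull⟩ := exists_prod_pull W (𝒳 := PowLike X)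
    (fun A B hA hB => hA.prod hB) (s := Fintype.card I + m) (fun k => AX (ε k)) (fun k => by
      change PowLike X (AX (ε k))
      rcases ε k with r | j
      · exact hA r
      · exact PowLike.refl X) (fun k => pX (ε k)) (fun k => xX (ε k))
  obtain ⟨l, q, x'', hretr⟩ := wordClass_retract W hA' q' (V := fun i : Fin 0 => i.elim0)
    (fun i => i.elim0) x'
  have hretr' : W.pull q' x' = W.pull q x'' := by
    have h1 := hretr (fun i => i.elim0)
    unfold wordClass at h1
    rw [List.ofFn_zero, List.prod_nil] at h1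
    have h2 : ∀ y : W.H T', y * (1 : W.H T') = y := fun y => mul_one y
    rwa [h2, h2] at h1
  refine ⟨T', l, q, x'', ζ, fun j i => π (.inr j) ≫ prodProj X (fun i => V (χ'.2 i)) i,
    εc ^ (m + 1) * c, hζ, hζF, fun v hv => ?_⟩
  let xx : ∀ r, W.H (AA r) := fun r => match r with
    | .inl r => x r
    | .inr j => extProd W.toCohomologyData x₀ (v j)
  have h1 := hform xx (fun r => by
    rcases r with r | j
    · exact hqx r
    · exact (hη (v j) (hv j)).1)
  have h2 : sumTen (fun r => kten W e (p r) (f r) (ρ r) (x r))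
      (fun (j : Fin (m + 1)) (w : Word d χ') =>
        ∏ i, W.pairing (V (χ'.2 i)) (v j i) (e (χ'.2 i) (w i))) =
      fun r => (Sum.elim (fun _ => (1 : K)) fun _ => εc : I ⊕ Fin (m + 1) → K) r •
        kten W e (pp r) (ff r) (ρρ r) (xx r) := by
    funext r
    rcases r with r | j
    · change kten W e (p r) (f r) (ρ r) (x r) = (1 : K) • kten W e (p r) (f r) (ρ r) (x r)
      rw [one_smul]
    · funext w
      exact (hη (v j) (hv j)).2 w
  rw [h2, pform_smul, h1]
  have h3 : ∏ r : I ⊕ Fin (m + 1), (Sum.elim (fun _ => (1 : K)) fun _ => εc :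
      I ⊕ Fin (m + 1) → K) r = εc ^ (m + 1) := by
    rw [Fintype.prod_sum_type]
    simp
  rw [h3, mul_assoc]
  congr 3
  -- the product
  rw [← hretr', ← hpull]
  have hsplit : ∀ G : I ⊕ Fin (m + 1) → W.H T',
      (List.ofFn fun k => G (ε k)).prod =
        (List.ofFn fun i : Fin (Fintype.card I) => G (.inl ((Fintype.equivFin I).symm i))).prod *
          (List.ofFn fun j : Fin (m + 1) => G (.inr j)).prod := by
    intro G
    have h4 : List.ofFn (fun k : Fin ((Fintype.card I + m) + 1) => G (ε k)) =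
        (List.ofFn fun i : Fin (Fintype.card I) => G (.inl ((Fintype.equivFin I).symm i))) ++
          List.ofFn fun j : Fin (m + 1) => G (.inr j) := by
      rw [← List.ofFn_fin_append]
      congr 1
      funext k
      refine Fin.addCases (m := Fintype.card I) (n := m + 1) (fun i => ?_) (fun j => ?_) k
      · rw [Fin.append_left]
        change G ((Equiv.sumCongr (Fintype.equivFin I).symm (Equiv.refl _))
          (finSumFinEquiv.symm (Fin.castAdd (m + 1) i))) = _
        rw [finSumFinEquiv_symm_apply_castAdd]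
        rfl
      · rw [Fin.append_right]
        change G ((Equiv.sumCongr (Fintype.equivFin I).symm (Equiv.refl _))
          (finSumFinEquiv.symm (Fin.natAdd (Fintype.card I) j))) = _
        rw [finSumFinEquiv_symm_apply_natAdd]
        rfl
    rw [h4, List.prod_append]
  rw [hsplit (fun r => W.pull (π r ≫ pp r) (xx r)), hsplit (fun r => W.pull (pX r) (xX r)),
    mul_assoc]
  refine congrArg₂ (fun a b : W.H T' => a * b) rfl ?_
  refine congrArg₂ (fun a b : W.H T' => a * b) rfl ?_
  have h4 : ∀ j : Fin (m + 1), W.pull (π (.inr j) ≫ pp (.inr j)) (xx (.inr j)) =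
      W.pull (pX (.inr j)) (xX (.inr j)) *
        (List.ofFn fun i => W.pull (π (.inr j) ≫ prodProj X (fun i => V (χ'.2 i)) i)
          (v j i)).prod := by
    intro j
    have h5 := C11.wordClass_comp W (π (.inr j)) (prodFst X fun i => V (χ'.2 i))
      (prodProj X fun i => V (χ'.2 i)) x₀ (v j)
    have h6 : π (.inr j) ≫ pp (.inr j) = π (.inr j) := Category.comp_id _
    rw [h6]
    exact h5.symm
  simp only [h4]
  refine C4.ofFn_mul_central (A := W.H T') (fun j : Fin (m + 1) =>
    W.pull (pX (.inr j)) (xX (.inr j))) _ fun j y => ?_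
  exact W.evK_comm _ _ _ (W.pull_evK _ _ hx₀)

end

end Pool.Agent.Helper11.Ro
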