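import Mathlib
import Pool.Agent.Helper11.Dt.DetClass
import Pool.Agent.Helper11.Ro.Coh
import Pool.Agent.Helper11.Ro.St.R1

/-!
# The determinant class is a class of cycles
-/

universe u v w t

open CategoryTheory TensorProduct Finset

namespace Pool.Agent.Helper11.Ro

open Pool.Agent.Helper10 hiding IsAlgAut parityPart
open SmProjVar SPre Pool.Agent.Helper10.GIT Pool.Agent.Helper11.Iso Pool.Agent.Helper11.Can
open Pool.Agent.Helper11.Obs (IsPiece IsNumTrivial extProd wordClass prodVar prodFst prodProj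
  power wordVar)
open Pool.Agent.Helper11.Dt hiding pform_eq_tr pform_kten_eq pform_eq_tr_word exists_push
  exists_det_class

/-- a multilinear map which vanishes on families of elements of sets vanishes on families of
elements of their spans -/
lemma multi_span {K : Type*} [Field K] {I : Type*} [Fintype I] [DecidableEq I] {M : I → Type*}
    [∀ i, AddCommGroup (M i)] [∀ i, Module K (M i)] (Φ : (∀ i, M i) → K)
    (hadd : ∀ x a y y', Φ (Function.update x a (y + y')) =
      Φ (Function.update x a y) + Φ (Function.update x a y'))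
    (hsmul : ∀ x a (c : K) y, Φ (Function.update x a (c • y)) = c * Φ (Function.update x a y))
    (S : ∀ i, Set (M i)) (h0 : ∀ x, (∀ i, x i ∈ S i) → Φ x = 0) (x : ∀ i, M i)
    (hx : ∀ i, x i ∈ Submodule.span K (S i)) : Φ x = 0 := by
  have key : ∀ (s : Finset I) (x : ∀ i, M i), (∀ i ∈ s, x i ∈ Submodule.span K (S i)) →
      (∀ i ∉ s, x i ∈ S i) → Φ x = 0 := by
    intro s
    induction s using Finset.induction_on with
    | empty => exact fun x _ h => h0 x fun i => h i (Finset.notMem_empty i)
    | insert a s ha ih =>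
      intro x hxs hxn
      have h1 : ∀ y ∈ Submodule.span K (S a), Φ (Function.update x a y) = 0 := by
        intro y hy
        induction hy using Submodule.span_induction with
        | mem y hy =>
          refine ih _ (fun i hi => ?_) fun i hi => ?_
          · have hia : i ≠ a := fun h => ha (h ▸ hi)
            rw [Function.update_of_ne hia]
            exact hxs i (Finset.mem_insert_of_mem hi)
          · by_cases hia : i = a
            · subst hia
              rw [Function.update_self]
              exact hy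
            · rw [Function.update_of_ne hia]
              exact hxn i fun h => (Finset.mem_insert.mp h).elim hia hi
        | zero =>
          have h2 := hsmul x a 0 0
          rwa [zero_smul, zero_mul] at h2
        | add y y' _ _ h h' => rw [hadd, h, h', add_zero]
        | smul c y _ h => rw [hsmul, h, mul_zero]
      have h2 := h1 (x a) (hxs a (Finset.mem_insert_self a s))
      rwa [Function.update_eq_self] at h2
  exact key Finset.univ x (fun i _ => hx i) fun i hi => absurd (Finset.mem_univ i) hi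

variable {k : Type u} [Field k] {K : Type v} [Field K] [CharZero K]
  (W : WeilCohomology.{u, v, w} k K)

private lemma exists_lift {A T : SmProjVar k} (p : T.toOver ⟶ A.toOver) :
    ∀ {b : ℕ} {V : Fin b → SmProjVar k} (f : ∀ i, T.toOver ⟶ (V i).toOver),
    ∃ g : T.toOver ⟶ (prodVar A V).toOver, g ≫ prodFst A V = p ∧
      ∀ i, g ≫ prodProj A V i = f i := by
  intro b
  induction b with
  | zero =>
    intro V f
    exact ⟨p, Category.comp_id p, fun i => i.elim0⟩
  | succ b ih =>
    intro V f
    obtain ⟨g, hg1, hg2⟩ := ih (V := fun i => V i.castSucc) fun i => f i.castSucc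
    refine ⟨SmProjVar.lift g (f (Fin.last _)), ?_, ?_⟩
    · have h1 : SmProjVar.lift g (f (Fin.last _)) ≫
          (SmProjVar.fst (prodVar A fun i => V i.castSucc) (V (Fin.last _)) ≫
            prodFst A fun i => V i.castSucc) = p := by
        rw [← Category.assoc, SmProjVar.lift_fst, hg1]
      exact h1
    · intro i
      refine Fin.lastCases ?_ (fun i => ?_) i
      · rw [C11.prodProj_last]
        exact SmProjVar.lift_snd _ _
      · rw [C11.prodProj_castSucc]
        have h1 : SmProjVar.lift g (f (Fin.last _)) ≫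
            (SmProjVar.fst (prodVar A fun i => V i.castSucc) (V (Fin.last _)) ≫
              prodProj A (fun i => V i.castSucc) i) = f i.castSucc := by
          rw [← Category.assoc, SmProjVar.lift_fst, hg2]
        exact h1

/-- `Dt.exists_push` for cycle classes -/
theorem exists_push {F : Subfield K} {A T : SmProjVar k} {b : ℕ} {V : Fin b → SmProjVar k}
    (p : T.toOver ⟶ A.toOver) (f : ∀ i, T.toOver ⟶ (V i).toOver) {ζ : W.H T}
    (hζ : IsNumTrivial W.toCohomologyData T ζ) (hζF : ζ ∈ cycleSpan W.toCohomologyData F T) :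
    ∃ Z : W.H (prodVar A V), IsNumTrivial W.toCohomologyData (prodVar A V) Z ∧
      Z ∈ cycleSpan W.toCohomologyData F (prodVar A V) ∧
      ∀ (x : W.H A) (v : ∀ i, W.H (V i)),
        W.tr T (ζ * wordClass W.toCohomologyData p f x v) =
          W.pairing (prodVar A V) Z (extProd W.toCohomologyData x v) := by
  obtain ⟨g, hg1, hg2⟩ := exists_lift p f
  have hrad : (W.toSPre K).rad T (Obs.one W K ζ) := (isNumTrivial_iff W).mp hζ
  have hrad' := SPre.pushF_rad g hrad
  obtain ⟨Z, hZ⟩ := eq_one W (prodVar A V) ((W.toSPre K).pushF g (Obs.one W K ζ))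
  refine ⟨Z, (isNumTrivial_iff W).mpr (by rw [← hZ]; exact hrad'), (one_mem_iff W F).mp (by
    rw [← hZ]
    exact (relStr W F K).push_mem g _ ((one_mem_iff W F).mpr hζF)), fun x v => ?_⟩
  have hw : wordClass W.toCohomologyData p f x v =
      W.pull g (extProd W.toCohomologyData x v) := by
    have h1 := C11.wordClass_comp W g (prodFst A V) (prodProj A V) x v
    rw [hg1, funext hg2] at h1
    exact h1
  have h2 := (W.toSPre K).tr_pushF g (Obs.one W K ζ)
    (Obs.one W K (extProd W.toCohomologyData x v))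
  rw [hZ, Obs.pull_one, Obs.tr_one_mul, Obs.tr_one_mul] at h2
  have h3 : W.pairing (prodVar A V) Z (extProd W.toCohomologyData x v) =
      W.pairing T ζ (W.pull g (extProd W.toCohomologyData x v)) :=
    (algebraMap K K).injective h2
  rw [h3, hw]
  rfl

section

variable {P : ℕ} {d : Fin P → ℕ} {V : Fin P → SmProjVar k}

lemma kten_add_left (e : ∀ c, Fin (d c) → W.H (V c)) {χ : Can.Shape P} {T X : SmProjVar k}
    (p : T.toOver ⟶ X.toOver) (f : ∀ i : Fin χ.1, T.toOver ⟶ (V (χ.2 i)).toOver) (r r' : W.H T)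
    (x : W.H X) : kten W e p f (r + r') x = kten W e p f r x + kten W e p f r' x := by
  funext w
  change W.trL T ((r + r') * W.pullA p x * kwd W e f w) =
    W.trL T (r * W.pullA p x * kwd W e f w) + W.trL T (r' * W.pullA p x * kwd W e f w)
  rw [add_mul, add_mul, map_add]

lemma kten_smul_left (e : ∀ c, Fin (d c) → W.H (V c)) {χ : Can.Shape P} {T X : SmProjVar k}
    (p : T.toOver ⟶ X.toOver) (f : ∀ i : Fin χ.1, T.toOver ⟶ (V (χ.2 i)).toOver) (a : K)
    (r : W.H T) (x : W.H X) : kten W e p f (a • r) x = a • kten W e p f r x := by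
  funext w
  change W.trL T ((a • r) * W.pullA p x * kwd W e f w) =
    a * W.trL T (r * W.pullA p x * kwd W e f w)
  rw [smul_mul_assoc, smul_mul_assoc, map_smul, smul_eq_mul]

lemma extProd_smul {A : SmProjVar k} {b : ℕ} {V : Fin b → SmProjVar k} (a : K) (x : W.H A)
    (v : ∀ i, W.H (V i)) : extProd W.toCohomologyData (a • x) v =
      a • extProd W.toCohomologyData x v := by
  change W.pullA (prodFst A V) (a • x) * _ = a • (W.pullA (prodFst A V) x * _)
  rw [map_smul, smul_mul_assoc]

/-- **The determinant class.** -/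
theorem exists_det_class {F : Subfield K} {X : SmProjVar k}
    {E : ∀ c, Submodule K (W.H (V c))}
    (hE : ∀ c, IsPiece W.toCohomologyData (V c) (E c)) (e : ∀ c, Fin (d c) → W.H (V c))
    (heE : ∀ c b, e c b ∈ E c) {B : Mats d K}
    (he : ∀ c, Piece (W.toSPre K) (V c) (d c) (fun b => Obs.one W K (e c b)) (B c))
    (heI : ∀ c, ∑ a, ∑ b, B c a b • (W.toSPre K).ext (V c) (V c) (Obs.one W K (e c a))
      (Obs.one W K (e c b)) ∈ (relStr W F K).A ((V c).prod (V c)))
    {γ : WSpace d} (hB : ∀ c i j, B c i j ≠ 0 → γ ⟨c, i⟩ + γ ⟨c, j⟩ ≤ 0) {n : ℕ}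
    (hwA : ∀ χ, ∀ z ∈ trunc n (kA W e (PowLike X)) χ, ∀ w : Word d χ, z w ≠ 0 → 0 ≤ wgt γ ⟨χ, w⟩)
    (hwN : ∀ χ, ∀ z ∈ trunc n (kN W e (PowLike X)) χ, ∀ w : Word d χ, z w ≠ 0 → 1 ≤ wgt γ ⟨χ, w⟩)
    {I : Type} [Fintype I] {χ : I → Can.Shape P} {m : ℕ} {Y : Type} [Fintype Y] [DecidableEq Y]
    (cl' : Y → Fin P) {len : Y → ℕ} {N : ℕ} (eN : (Σ y : Y, Fin (len y)) ≃ Fin N)
    (L : ∀ y, Fin (len y) → Fin (d (cl' y))) (hL : ∀ y, Function.Injective (L y)) (t : Y → ℝ)
    (hLt : ∀ y b, b ∈ Set.range (L y) ↔ γ ⟨cl' y, b⟩ ≤ t y) {S : Type} [Fintype S]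
    (cl : S → Fin P) (σ : S × Fin 2 ≃ Pos (sumShape χ (m + 1) (bshape cl' eN)))
    (z : ∀ r, Ten d K (χ r)) (J : Finset I) (hzA : ∀ r, z r ∈ trunc n (kA W e (PowLike X)) (χ r))
    (hzN : ∀ r ∈ J, z r ∈ trunc n (kN W e (PowLike X)) (χ r)) (hJ : J.Nonempty)
    (hb : ((m + 1 : ℕ) : ℝ) * -(∑ q : (Σ y : Y, Fin (len y)), γ ⟨cl' q.1, L q.1 q.2⟩) ≤ #J)
    (h0 : pform B cl σ (sumTen z fun _ => bdet cl' eN L) ≠ 0) {b' : ℕ}
    (e' : (Σ y : Fin (m + 1) × Y, Fin (len y.2)) ≃ Fin b') :
    ∃ (l : ℕ) (x : W.H (power X l)) (Z : W.H (wordVar X V l fun k => cl' (e'.symm k).1.2)),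
      IsNumTrivial W.toCohomologyData _ Z ∧ Z ∈ cycleSpan W.toCohomologyData F _ ∧
      ∀ v : ∀ q : (Σ y : Fin (m + 1) × Y, Fin (len y.2)), W.H (V (cl' q.1.2)),
        (∀ q, v q ∈ E (cl' q.1.2)) →
        W.pairing _ Z (extProd W.toCohomologyData x fun k => v (e'.symm k)) =
          ∏ y : Fin (m + 1) × Y, Matrix.det (Matrix.of fun s s' =>
            W.pairing (V (cl' y.2)) (v ⟨y, s⟩) (e (cl' y.2) (L y.2 s'))) := by
  classical
  obtain ⟨r₀, hr₀⟩ := hJ
  have h1 : ∀ r, ∃ (T A : SmProjVar k) (p : T.toOver ⟶ A.toOver)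
      (f : ∀ i : Fin (χ r).1, T.toOver ⟶ (V ((χ r).2 i)).toOver) (ρ : W.H T) (x : W.H A),
      PowLike X A ∧ ρ ∈ W.algClasses T ∧ (r ∈ J → IsNumTrivial W.toCohomologyData T ρ) ∧
      z r = kten W e p f ρ x ∧ (χ r).1 ≤ n := by
    intro r
    by_cases hr : r ∈ J
    · obtain ⟨⟨T, A, p, f, ρ, x, hA, hρ, hρ0, hz⟩, hn⟩ := hzN r hr
      exact ⟨T, A, p, f, ρ, x, hA, hρ, fun _ => ⟨hρ, hρ0⟩, hz, hn⟩
    · obtain ⟨⟨T, A, p, f, ρ, x, hA, hρ, hz⟩, hn⟩ := hzA r
      exact ⟨T, A, p, f, ρ, x, hA, hρ, fun h => absurd h hr, hz, hn⟩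
  choose T A p f ρ x hA hρ hρ0 hz hn using h1
  obtain rfl : z = fun r => kten W e (p r) (f r) (ρ r) (x r) := funext hz
  -- homogeneous classes
  obtain ⟨x, hx, h0⟩ : ∃ x : ∀ r, W.H (A r), (∀ r, x r ∈ W.evK (A r) ∨ x r ∈ W.odK (A r)) ∧
      pform B cl σ (sumTen (fun r => kten W e (p r) (f r) (ρ r) (x r))
        fun _ => bdet cl' eN L) ≠ 0 := by
    by_contra hcon
    push Not at hcon
    refine h0 (C4.multi_zero (fun x : ∀ r, W.H (A r) => pform B cl σ
      (sumTen (fun r => kten W e (p r) (f r) (ρ r) (x r)) fun _ => bdet cl' eN L))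
      (fun x a y y' => ?_) (fun r y => y ∈ W.evK (A r) ∨ y ∈ W.odK (A r)) (fun r y => ?_)
      (fun x hx => hcon x hx) x)
    · refine pform_update_add B cl σ _ _ _ (.inl a) ?_ ?_ ?_
      · change kten W e (p a) (f a) (ρ a) (Function.update x a (y + y') a) =
          kten W e (p a) (f a) (ρ a) (Function.update x a y a) +
            kten W e (p a) (f a) (ρ a) (Function.update x a y' a)
        rw [Function.update_self, Function.update_self, Function.update_self, kten_add]
      · rintro (r | j) hr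
        · have hra : r ≠ a := fun h => hr (by rw [h])
          change kten W e (p r) (f r) (ρ r) (Function.update x a (y + y') r) =
            kten W e (p r) (f r) (ρ r) (Function.update x a y r)
          rw [Function.update_of_ne hra, Function.update_of_ne hra]
        · rfl
      · rintro (r | j) hr
        · have hra : r ≠ a := fun h => hr (by rw [h])
          change kten W e (p r) (f r) (ρ r) (Function.update x a (y + y') r) =
            kten W e (p r) (f r) (ρ r) (Function.update x a y' r)
          rw [Function.update_of_ne hra, Function.update_of_ne hra]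
        · rfl
    · have h1 : y ∈ W.evK (A r) ⊔ W.odK (A r) := by
        rw [(W.isCompl (A r)).sup_eq_top]
        trivial
      obtain ⟨a, ha, b, hb, hab⟩ := Submodule.mem_sup.mp h1
      exact ⟨a, b, .inl ha, .inr hb, hab.symm⟩
  -- classes of cycles
  obtain ⟨ρ', hρ', hρ0', h0⟩ : ∃ ρ' : ∀ r, W.H (T r),
      (∀ r, ρ' r ∈ cycleSpan W.toCohomologyData F (T r)) ∧
      (∀ r, r ∈ J → IsNumTrivial W.toCohomologyData (T r) (ρ' r)) ∧
      pform B cl σ (sumTen (fun r => kten W e (p r) (f r) (ρ' r) (x r))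
        fun _ => bdet cl' eN L) ≠ 0 := by
    by_contra hcon
    push Not at hcon
    refine h0 (multi_span (K := K) (fun ρ : ∀ r, W.H (T r) => pform B cl σ
      (sumTen (fun r => kten W e (p r) (f r) (ρ r) (x r)) fun _ => bdet cl' eN L))
      (fun ρ a y y' => ?_) (fun ρ a c y => ?_)
      (fun r => {y | y ∈ cycleSpan W.toCohomologyData F (T r) ∧
        (r ∈ J → IsNumTrivial W.toCohomologyData (T r) y)})
      (fun ρ hρ => hcon ρ (fun r => (hρ r).1) fun r => (hρ r).2) ρ fun r => ?_)
    · refine pform_update_add B cl σ _ _ _ (.inl a) ?_ ?_ ?_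
      · change kten W e (p a) (f a) (Function.update ρ a (y + y') a) (x a) =
          kten W e (p a) (f a) (Function.update ρ a y a) (x a) +
            kten W e (p a) (f a) (Function.update ρ a y' a) (x a)
        rw [Function.update_self, Function.update_self, Function.update_self, kten_add_left]
      · rintro (r | j) hr
        · have hra : r ≠ a := fun h => hr (by rw [h])
          change kten W e (p r) (f r) (Function.update ρ a (y + y') r) (x r) =
            kten W e (p r) (f r) (Function.update ρ a y r) (x r)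
          rw [Function.update_of_ne hra, Function.update_of_ne hra]
        · rfl
      · rintro (r | j) hr
        · have hra : r ≠ a := fun h => hr (by rw [h])
          change kten W e (p r) (f r) (Function.update ρ a (y + y') r) (x r) =
            kten W e (p r) (f r) (Function.update ρ a y' r) (x r)
          rw [Function.update_of_ne hra, Function.update_of_ne hra]
        · rfl
    · have h1 : (sumTen (fun r => kten W e (p r) (f r) (Function.update ρ a (c • y) r) (x r))
          fun _ => bdet cl' eN L : ∀ r, Ten d K (sumShape χ (m + 1) (bshape cl' eN) r)) =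
          fun r => (if r = .inl a then c else 1 : K) • (sumTen (fun r => kten W e (p r) (f r)
            (Function.update ρ a y r) (x r)) fun _ => bdet cl' eN L :
              ∀ r, Ten d K (sumShape χ (m + 1) (bshape cl' eN) r)) r := by
        funext r
        rcases r with r | j
        · by_cases hra : r = a
          · subst hra
            rw [if_pos rfl]
            change kten W e (p r) (f r) (Function.update ρ r (c • y) r) (x r) =
              c • kten W e (p r) (f r) (Function.update ρ r y r) (x r)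
            rw [Function.update_self, Function.update_self, kten_smul_left]
          · rw [if_neg (fun h => hra (Sum.inl_injective h)), one_smul]
            change kten W e (p r) (f r) (Function.update ρ a (c • y) r) (x r) =
              kten W e (p r) (f r) (Function.update ρ a y r) (x r)
            rw [Function.update_of_ne hra, Function.update_of_ne hra]
        · rw [if_neg (by simp), one_smul]
          rfl
      rw [h1, pform_smul]
      congr 1
      rw [Finset.prod_ite_eq' univ (Sum.inl a : I ⊕ Fin (m + 1)) (fun _ => c),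
        if_pos (mem_univ _)]
    · by_cases hr : r ∈ J
      · have h1 := mem_span_numTrivial W F (hρ0 r hr)
        refine Submodule.span_mono ?_ h1
        exact fun y hy => ⟨hy.1, fun _ => hy.2⟩
      · refine Submodule.span_mono ?_ (hρ r)
        rintro _ ⟨j, c, rfl⟩
        exact ⟨cy_mem_cycleSpan W F _ j c, fun h => absurd h hr⟩
  obtain ⟨C, hC⟩ : ∃ C, C = pform B cl σ (sumTen (fun r => kten W e (p r) (f r) (ρ' r) (x r))
    fun _ => bdet cl' eN L) := ⟨_, rfl⟩
  rw [← hC] at h0
  -- the form as a trace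
  obtain ⟨T', l, q, x', ζ, g, c, hζ, hζF, hform⟩ := pform_eq_tr_word W (F := F) (X := X) hE e heE
    he heI cl σ T A hA p f ρ' hρ' r₀ (hρ0' r₀ hr₀) x hx
  -- the classes, for each permutation
  have h2 : ∀ τ : (∀ y : Fin (m + 1) × Y, Equiv.Perm (Fin (len y.2))),
      ∃ Z : W.H (wordVar X V l fun k => cl' (e'.symm k).1.2), IsNumTrivial W.toCohomologyData _ Z ∧
      Z ∈ cycleSpan W.toCohomologyData F _ ∧
      ∀ v : ∀ q : (Σ y : Fin (m + 1) × Y, Fin (len y.2)), W.H (V (cl' q.1.2)),
        (∀ q, v q ∈ E (cl' q.1.2)) →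
        pform B cl σ (sumTen (fun r => kten W e (p r) (f r) (ρ' r) (x r)) fun j w =>
          ∏ i : Fin N, W.pairing (V (cl' (eN.symm i).1))
            (v ⟨(j, (eN.symm i).1), τ (j, (eN.symm i).1) (eN.symm i).2⟩)
            (e (cl' (eN.symm i).1) (w i))) =
        c * W.pairing _ Z (extProd W.toCohomologyData x' fun k => v (e'.symm k)) := by
    intro τ
    obtain ⟨g', cτ, hg'⟩ := exists_reorder_words W hE
      (fun q : (Σ y : Fin (m + 1) × Y, Fin (len y.2)) => cl' q.1.2) e' (blockEquiv eN τ) g
    obtain ⟨Z, hZ, hZF, hZ'⟩ := exists_push W q g' hζ hζF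
    refine ⟨(cτ : K) • Z, isNumTrivial_smul W hZ _, ?_, fun v hv => ?_⟩
    · have h1 := smul_mem_cycleSpan W (cτ : F) hZF
      rwa [show (((cτ : F) : K)) = (cτ : K) by norm_cast] at h1
    have h3 := hform (fun j i => v (blockEquiv eN τ (j, i)))
      fun j i => hv (blockEquiv eN τ (j, i))
    refine h3.trans ((congrArg (fun y : W.H T' => c * W.tr T' (ζ * (W.pull q x' * y)))
      (hg' v hv)).trans ?_)
    have h4 : W.pairing (wordVar X V l fun k => cl' (e'.symm k).1.2) ((cτ : K) • Z)
        (extProd W.toCohomologyData x' fun k => v (e'.symm k)) =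
        (cτ : K) * W.pairing _ Z
          (extProd W.toCohomologyData x' fun k => v (e'.symm k)) := by
      change W.trL _ (((cτ : K) • Z) * _) = _ * W.trL _ (Z * _)
      rw [smul_mul_assoc, map_smul, smul_eq_mul]
    rw [h4, ← hZ' x' fun k => v (e'.symm k)]
    congr 1
    unfold wordClass
    rw [mul_smul_comm, mul_smul_comm, ← Int.cast_smul_eq_zsmul K, ← W.trL_apply, map_smul,
      smul_eq_mul]
    rfl
  choose Z hZ hZF hZv using h2
  -- antisymmetrisation
  refine ⟨l, (C⁻¹ * c) • x', ∑ τ, ((∏ y, ((Equiv.Perm.sign (τ y) : ℤ) : K)) • Z τ),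
    isNumTrivial_sum W _ _ fun τ _ => isNumTrivial_smul W (hZ τ) _,
    Submodule.sum_mem _ fun τ _ => ?_, fun v hv => ?_⟩
  · have h1 := smul_mem_cycleSpan W (∏ y, ((Equiv.Perm.sign (τ y) : ℤ) : F)) (hZF τ)
    rwa [show ((∏ y, ((Equiv.Perm.sign (τ y) : ℤ) : F) : F) : K) =
      ∏ y, ((Equiv.Perm.sign (τ y) : ℤ) : K) by push_cast; rfl] at h1
  have h3 := alt_pform B hB cl' eN L hL t hLt cl σ
    (fun r => kten W e (p r) (f r) (ρ' r) (x r)) (fun r => if r ∈ J then 1 else 0)
    (fun r w hw => by
      split_ifs with hr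
      · exact hwN (χ r) _ ⟨⟨T r, A r, p r, f r, ρ' r, x r, hA r, cycleSpan_le W _ (hρ' r),
          (hρ0' r hr).2, rfl⟩, hn r⟩ w hw
      · exact hwA (χ r) _ ⟨⟨T r, A r, p r, f r, ρ' r, x r, hA r, cycleSpan_le W _ (hρ' r), rfl⟩,
          hn r⟩ w hw)
    (by simpa using hb)
    (fun q b => W.pairing (V (cl' q.1.2)) (v q) (e (cl' q.1.2) b))
  rw [← hC] at h3
  have h4 : W.pairing (wordVar X V l fun k => cl' (e'.symm k).1.2)
      (∑ τ, ((∏ y, ((Equiv.Perm.sign (τ y) : ℤ) : K)) • Z τ))
      (extProd W.toCohomologyData ((C⁻¹ * c) • x') fun k => v (e'.symm k)) =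
      C⁻¹ * ∑ τ, ((∏ y, ((Equiv.Perm.sign (τ y) : ℤ) : K)) * (c * W.pairing _ (Z τ)
        (extProd W.toCohomologyData x' fun k => v (e'.symm k)))) := by
    rw [extProd_smul]
    change W.trL _ (_ * ((C⁻¹ * c) • _)) = _
    rw [mul_smul_comm, map_smul, smul_eq_mul, sum_mul, map_sum, mul_assoc, mul_sum]
    congr 1
    refine sum_congr rfl fun τ _ => ?_
    rw [smul_mul_assoc, map_smul, smul_eq_mul]
    change c * (_ * W.trL _ _) = _ * (c * W.trL _ _)
    ring
  rw [h4, ← mul_right_inj' h0, ← h3, ← mul_assoc, mul_inv_cancel₀ h0, one_mul]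
  refine sum_congr rfl fun τ _ => ?_
  rw [← hZv τ v hv]

end

end Pool.Agent.Helper11.Ro
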