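import Mathlib
import Pool.Agent.Helper11.Dt.Thm
import Pool.Agent.Helper11.Ro.Can3

/-!
# Flags whose determinant is a numerically trivial cycle class
-/

universe u v w t

open CategoryTheory TensorProduct Finset

namespace Pool.Agent.Helper11.Ro

open Pool.Agent.Helper10 hiding IsAlgAut parityPart
open SmProjVar SPre Pool.Agent.Helper10.GIT Pool.Agent.Helper11.Iso Pool.Agent.Helper11.Can
open Pool.Agent.Helper11.Obs Pool.Agent.Helper11.Dr
open Pool.Agent.Helper11.Dt hiding pform_eq_tr pform_kten_eq pform_eq_tr_word exists_push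
  exists_det_class kpiece_of_basis det_of_optimal exists_canonical3 exists_related_det

variable {k : Type u} [Field k] {K : Type v} [Field K] [CharZero K]
  (W : WeilCohomology.{u, v, w} k K)

/-- **The canonical filtration is related, and its determinant is numerically trivial.** -/
theorem exists_related_det {F₁ : Subfield K} {X : SmProjVar k} (hX : ∀ n, W.StandardD (power X n)) {P : ℕ}
    (V : Fin P → SmProjVar k) (E : ∀ c, Submodule K (W.H (V c)))
    (hE₁ : ∀ c, IsPieceOver W.toCohomologyData F₁ (V c) (E c)) {n : ℕ} (hn : 2 ≤ n) :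
    ∃ F : ∀ c, ℝ → Submodule K (W.H (V c)),
      IsCanonical.{u, v, w, t} W.toCohomologyData X V E n F ∧
        (NumTrivialOrthogonal W.toCohomologyData X V E n → IsTrivial W.toCohomologyData F) ∧
        ∃ D, IsRelatedFiltration.{u, v, w, t} W.toCohomologyData X V E F D ∧
          (¬ IsTrivial W.toCohomologyData F → HasNumTrivialDeterminantOver W.toCohomologyData X E
            (fun c i => F c (((i + 1 : ℕ) : ℝ) / D)) F₁) := by
  have hE : ∀ c, IsPiece W.toCohomologyData (V c) (E c) := fun c => (hE₁ c).isPiece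
  obtain ⟨F, hF, htriv, D, hD, hjump, hrel, hdet⟩ :=
    exists_canonical3.{u, v, w, t} W hX V E hE₁ hn
  refine ⟨F, hF, htriv, D, ⟨hD, hjump, ?_⟩, hdet⟩
  have had := hF.admissible
  have hD' : (0 : ℝ) < D := by exact_mod_cast hD
  refine ⟨fun c i => had.le c _, fun c i j hij => ?_, ?_, fun c i => ?_, ?_, ?_, ?_⟩
  · refine antitone_of_admissible had c ?_
    rw [div_le_div_iff_of_pos_right hD']
    exact_mod_cast Nat.succ_le_succ hij
  · obtain ⟨M, hM⟩ := had.bounded
    obtain ⟨N, hN⟩ := exists_nat_ge ((D : ℝ) * M)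
    refine ⟨N, fun c => ?_⟩
    rw [eq_bot_iff, ← hM c]
    refine antitone_of_admissible had c ?_
    rw [le_div_iff₀ hD', mul_comm]
    refine hN.trans ?_
    exact_mod_cast Nat.le_succ N
  · exact isotropic_of_admissible had c (div_pos (by positivity) hD')
  · intro c c' u hu huE i y hy
    exact corr_of_admissible hE hn had hu huE _ hy
  · intro Ω _ _ g χ hg hgE c i
    exact hF.stable Ω g χ hg hgE c _
  · intro Ω _ _ _ g χ hg hgE N δ hN hδ
    exact hrel Ω g χ hg hgE (fun c a => hF.stable Ω g χ hg hgE c a) N δ hN hδ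

end Pool.Agent.Helper11.Ro
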