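import Mathlib
import Pool.Agent.Helper11.Ro.Flags
import Pool.Agent.Helper11.Ro.St.R3
import Pool.Agent.Helper11.Ro.St.R4
import Pool.Agent.Helper11.Ro.St.R5
import Pool.Agent.Helper11.Ro.St.R6
import Pool.Agent.Helper11.Ro.St.R7
import Pool.Agent.Helper11.Ro.St.R8
import Pool.Agent.Helper11.CritTFAE

/-!
# The standard conjecture D and the independence of cycle classes
-/

universe u v w t

open CategoryTheory TensorProduct Finset

namespace Pool.Agent.Helper11.Ro

open Pool.Agent.Helper10 hiding IsAlgAut parityPart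
open SmProjVar SPre Pool.Agent.Helper11.Iso
open Pool.Agent.Helper11.Obs

variable {k : Type u} [Field k] {K : Type v} [Field K] [CharZero K]
  (W : WeilCohomology.{u, v, w} k K) {F : Subfield K}

/-! ### points -/

lemma power_pt_dim (n : ℕ) : (power (pt k) n).dim = 0 := by
  induction n with
  | zero => rfl
  | succ n ih =>
    have h1 : power (pt k) (n + 1) = (power (pt k) n).prod (pt k) := rfl
    rw [h1]
    have h2 : ((power (pt k) n).prod (pt k)).dim = (pt k).dim + (power (pt k) n).dim := rfl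
    rw [h2, ih, pt_dim]

lemma standardD_power_pt (n : ℕ) : W.StandardD (power (pt k) n) :=
  standardD_of_dim_eq_zero W _ (power_pt_dim n)

/-- the cohomology of a point is one-dimensional -/
lemma exists_smul_of_dim_zero {X : SmProjVar k} (hX : X.dim = 0) {x : W.H X} (hx : x ≠ 0)
    (y : W.H X) : ∃ c : K, y = c • x := by
  have hgr : ∀ z : W.H X, z ∈ W.gr X (2 * X.dim) := by
    intro z
    have h1 : (⨆ i, W.gr X i) ≤ W.gr X (2 * X.dim) := by
      refine iSup_le fun i => ?_
      rcases Nat.eq_zero_or_pos i with rfl | hi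
      · rw [hX]
      · rw [(W.graded X).eq_bot i (by omega)]
        exact bot_le
    rw [(W.graded X).iSup_eq_top] at h1
    exact h1 trivial
  have hinj : ∀ z z' : W.H X, W.trL X z = W.trL X z' → z = z' := by
    intro z z' h
    obtain ⟨a, -, ha⟩ := (W.trace X).bijective (W.tr X z')
    rw [ha z ⟨hgr z, h⟩, ha z' ⟨hgr z', rfl⟩]
  have hx' : W.trL X x ≠ 0 := fun h => hx (hinj x 0 (by rw [h, map_zero]))
  refine ⟨W.trL X y / W.trL X x, hinj _ _ ?_⟩
  rw [map_smul, smul_eq_mul, div_mul_cancel₀ _ hx']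

/-! ### adjoints and projectors -/

lemma exists_adjoint_left {V : SmProjVar k} {u : W.H V → W.H V}
    (hu : IsMapOver W.toCohomologyData F V u) :
    ∃ u' : W.H V → W.H V, IsMapOver W.toCohomologyData F V u' ∧
      ∀ x y, W.pairing V (u' x) y = W.pairing V x (u y) := by
  obtain ⟨κ, hκ, h⟩ := (r5_iff W).mp hu
  have hκs : (W.toSPre K).pull (swap V) κ ∈ (relStr W F K).A (V.prod V) :=
    (relStr W F K).pull_mem _ _ hκ
  have hev : κ ∈ (W.toSPre K).ev (V.prod V) :=
    (W.toSPre K).alg_le_ev _ ((relStr W F K).le _ _ hκ)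
  obtain ⟨c, hc, hcs⟩ := (mem_relA W F K).mp hκs
  have hc1 : Obs.one W K c = (W.toSPre K).pull (swap V) κ := hcs
  obtain ⟨u', -, hu'⟩ := exists_map W K (cycleSpan_le W _ hc)
  refine ⟨u', (isMapOver_iff W).mpr ⟨c, hc, hu'⟩, fun x y => ?_⟩
  apply (algebraMap K K).injective
  rw [← Obs.tr_one_mul, ← Obs.tr_one_mul, ← hu', ← h, hc1, ← tr_op_swap hev]

/-- orthogonality is symmetric for elements of pure parity -/
lemma pairing_eq_zero_symm {V₀ : SmProjVar k} {E : Submodule K (W.H V₀)}
    (hE : ∃ p, E ≤ parityPart W.toCohomologyData V₀ p) {x : W.H V₀} (hx : x ∈ E) {y : W.H V₀}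
    (h : W.pairing V₀ x y = 0) : W.pairing V₀ y x = 0 := by
  refine (algebraMap K K).injective ?_
  rw [map_zero, ← Obs.tr_one_mul]
  have h2 : (W.toSPre K).tr V₀ (Obs.one W K x * Obs.one W K y) = 0 := by
    rw [Obs.tr_one_mul]
    change algebraMap K K (W.pairing V₀ x y) = 0
    rw [h, map_zero]
  rw [tr_par]
  obtain ⟨p, hp⟩ := hE
  by_cases hp' : Even p
  · rw [par_ev (Obs.one_ev W K (Obs.parityPart_le_evK W hp' (hp hx))), h2]
  · rw [par_od (Obs.one_od W K (Obs.parityPart_le_odK W hp' (hp hx))), neg_mul, map_neg, h2,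
      neg_zero]

lemma pairing_sub_left {V₀ : SmProjVar k} (x y z : W.H V₀) :
    W.pairing V₀ (x - y) z = W.pairing V₀ x z - W.pairing V₀ y z := by
  change W.trL V₀ ((x - y) * z) = W.trL V₀ (x * z) - W.trL V₀ (y * z)
  rw [sub_mul, map_sub]

lemma pairing_sub_right {V₀ : SmProjVar k} (x y z : W.H V₀) :
    W.pairing V₀ x (y - z) = W.pairing V₀ x y - W.pairing V₀ x z := by
  change W.trL V₀ (x * (y - z)) = W.trL V₀ (x * y) - W.trL V₀ (x * z)
  rw [mul_sub, map_sub]

lemma pairing_smul_left {V₀ : SmProjVar k} (a : K) (x z : W.H V₀) :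
    W.pairing V₀ (a • x) z = a * W.pairing V₀ x z := by
  change W.trL V₀ ((a • x) * z) = a * W.trL V₀ (x * z)
  rw [smul_mul_assoc, map_smul, smul_eq_mul]

/-- the projector to a piece -/
lemma IsPieceOver.exists_proj {V₀ : SmProjVar k} {E : Submodule K (W.H V₀)}
    (hE : IsPieceOver W.toCohomologyData F V₀ E) :
    ∃ π : W.H V₀ → W.H V₀, IsMapOver W.toCohomologyData F V₀ π ∧ (∀ y, π y ∈ E) ∧
      ∀ y, ∀ x ∈ E, W.pairing V₀ (π y) x = W.pairing V₀ y x := by
  obtain ⟨π, hπ, h⟩ := hE.projector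
  refine ⟨π, hπ, fun y => (h y).1, fun y x hx => ?_⟩
  have h1 : W.pairing V₀ x (π y - y) = 0 := by
    rw [pairing_sub_right, (h y).2 x hx, sub_self]
  have h2 := pairing_eq_zero_symm W hE.parity hx h1
  rwa [pairing_sub_left, sub_eq_zero] at h2

/-- the operator on the factors of class `c₀` -/
lemma exists_slot_map {V₀ : SmProjVar k} {E : Submodule K (W.H V₀)} {π : W.H V₀ → W.H V₀}
    (hπ : IsMapOver W.toCohomologyData F V₀ π) (hπE : ∀ y, π y ∈ E)
    (hπp : ∀ y, ∀ x ∈ E, W.pairing V₀ (π y) x = W.pairing V₀ y x) {u : W.H V₀ → W.H V₀}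
    (hu : IsMapOver W.toCohomologyData F V₀ u) {a : K} (ha : a ∈ F) :
    ∃ w : W.H V₀ → W.H V₀, IsMapOver W.toCohomologyData F V₀ w ∧ (∀ y, w y ∈ E) ∧
      ∀ (r : ℕ) (f : Fin r → W.H V₀) (ρ : Matrix (Fin r) (Fin r) K), (∀ s, f s ∈ E) →
        (∀ s, u (f s) = ∑ s', ρ s' s • f s') → ∀ v : Fin r → W.H V₀,
        Matrix.det (Matrix.of fun s s' => W.pairing V₀ (w (v s)) (f s')) =
          Matrix.det (Matrix.of fun s s' => W.pairing V₀ (π (v s)) (f s')) *
            (Matrix.scalar (Fin r) a - ρ).det := by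
  obtain ⟨u', hu', hadj⟩ := exists_adjoint_left W hu
  refine ⟨fun y => π ((fun z => a • z - u' z) (π y)),
    isMapOver_comp W (isMapOver_comp W hπ (isMapOver_sub W (isMapOver_smul W ha
      (isMapOver_id W V₀)) hu')) hπ, fun y => hπE _, fun r f ρ hf hρ v => ?_⟩
  rw [← Matrix.det_mul]
  congr 1
  ext s s'
  rw [Matrix.of_apply, hπp _ _ (hf s'), pairing_sub_left, pairing_smul_left, hadj, hρ,
    Can.pairing_sum W, Matrix.mul_sub, Matrix.sub_apply]
  congr 1
  · rw [Matrix.scalar_apply, Matrix.mul_diagonal, Matrix.of_apply, mul_comm]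
  · rw [Matrix.mul_apply]
    refine sum_congr rfl fun s'' _ => ?_
    rw [Can.pairing_smul W, Matrix.of_apply, mul_comm]

/-! ### products are spanned by words -/

variable {P : ℕ} {V : Fin P → SmProjVar k} {E : Subspaces W.toCohomologyData V}

lemma isSpanned_power_pt (hE : ∀ c, IsPiece W.toCohomologyData (V c) (E c)) (n : ℕ) :
    IsSpanned W.toCohomologyData V E (power (pt k) n) := by
  induction n with
  | zero => exact isSpanned_pt W
  | succ n ih => exact isSpanned_prod W hE ih (isSpanned_pt W)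

lemma isSpanned_prodVar (hE : ∀ c, IsPiece W.toCohomologyData (V c) (E c)) {A : SmProjVar k}
    (hA : IsSpanned W.toCohomologyData V E A) {b : ℕ} (U : Fin b → SmProjVar k)
    (hU : ∀ i, IsSpanned W.toCohomologyData V E (U i)) :
    IsSpanned W.toCohomologyData V E (prodVar A U) := by
  induction b with
  | zero => exact hA
  | succ b ih => exact isSpanned_prod W hE (ih (fun i => U i.castSucc) fun i => hU _) (hU _)

/-! ### the flags are defined over the subfield -/

omit [CharZero K] in
lemma prod_blocks {ι : Type*} [Fintype ι] {N m : ℕ} [DecidableEq ι] (c₀ : ι) (d : Fin N → K) :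
    ∏ y : Fin m × ι × Fin N, (if y.2.1 = c₀ then d y.2.2 else 1) = (∏ i, d i) ^ m := by
  rw [Fintype.prod_prod_type]
  simp only
  rw [prod_const, card_univ, Fintype.card_fin]
  congr 1
  rw [Fintype.prod_prod_type]
  simp only
  rw [prod_eq_single c₀ (fun c _ hc => by simp [hc]) (fun h => absurd (mem_univ _) h)]
  simp

/-- the polynomials in a correspondence -/
lemma exists_isNilpotent {V₀ : SmProjVar k} {E : Submodule K (W.H V₀)}
    (hE : IsPieceOver W.toCohomologyData F V₀ E) {u : W.H V₀ → W.H V₀}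
    (hu : IsMapOver W.toCohomologyData F V₀ u) (A : Module.End K E)
    (hA : ∀ y : E, ((A y : E) : W.H V₀) = u y) :
    ∃ p : Polynomial F, p ≠ 0 ∧ IsNilpotent (Polynomial.aeval A (p.map F.subtype)) := by
  have hfin : Module.Finite K (W.H V₀) := (W.graded V₀).finite
  refine exists_isNilpotent_of_trace F A fun n => ?_
  obtain ⟨un, hun, hAn⟩ : ∃ un : W.H V₀ → W.H V₀, IsMapOver W.toCohomologyData F V₀ un ∧
      ∀ y : E, (((A ^ n) y : E) : W.H V₀) = un y := by
    induction n with
    | zero => exact ⟨fun y => y, isMapOver_id W V₀, fun y => rfl⟩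
    | succ n ih =>
      obtain ⟨un, hun, hAn⟩ := ih
      refine ⟨fun y => u (un y), isMapOver_comp W hun hu, fun y => ?_⟩
      rw [pow_succ', Module.End.mul_apply, hA, hAn]
  exact trace_mem W hE hun (A ^ n) hAn

/-- **The eigenvalues of correspondences on the flags.** If no nonzero class with coefficients in
`F` has a multiple by a scalar outside `F` with coefficients in `F`, the eigenvalues of the
correspondences with coefficients in `F` on flags with numerically trivial determinant are roots of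
polynomials over `F`. -/
theorem hasEigenvaluesOver_of_flags
    (hE : ∀ c, IsPieceOver W.toCohomologyData F (V c) (E c))
    (hs : ∀ c, IsSpanned W.toCohomologyData V E (V c))
    (hI : ∀ Y, IsSpanned W.toCohomologyData V E Y → HasRationalMultiples W.toCohomologyData F Y)
    {G : ∀ c : Fin P, ℕ → Submodule K (W.H (V c))}
    (hG : AreRelatedFlags.{u, v, w, t} W.toCohomologyData (pt k) V E G)
    (hdet : HasNumTrivialDeterminantOver W.toCohomologyData (pt k) E G F) {c₀ : Fin P}
    {u : W.H (V c₀) → W.H (V c₀)} (hu : IsMapOver W.toCohomologyData F (V c₀) u)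
    (huE : ∀ y ∈ E c₀, u y ∈ E c₀) : HasEigenvaluesOver F u (G c₀ 0) := by
  classical
  obtain ⟨N, m, b, l, r, f, e, z, x, hm, hN, hf, hz, hzF, hv⟩ := hdet
  have hE' : ∀ c, IsPiece W.toCohomologyData (V c) (E c) := fun c => (hE c).isPiece
  choose π hπ hπE hπp using fun c => (hE c).exists_proj
  obtain ⟨ul, hul⟩ := IsMapOver.exists_linear W hu
  have hfG : ∀ y s, f y s ∈ G y.1 y.2 := fun y s => by
    rw [← (hf y).2]
    exact Submodule.subset_span ⟨s, rfl⟩
  have hfE : ∀ y s, f y s ∈ E y.1 := fun y s => hG.le y.1 y.2 (hfG y s)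
  have hρ : ∀ (i : Fin N) (s : Fin (r (c₀, i))), ∃ ρ : Fin (r (c₀, i)) → K,
      u (f (c₀, i) s) = ∑ s', ρ s' • f (c₀, i) s' := by
    intro i s
    have h1 := hG.correspondences c₀ c₀ u (IsMapOver.isAlgebraicMap W hu) huE i _ (hfG (c₀, i) s)
    rw [← (hf (c₀, i)).2] at h1
    obtain ⟨ρ, hρ⟩ := (Submodule.mem_span_range_iff_exists_fun K).mp h1
    exact ⟨ρ, hρ.symm⟩
  choose ρ hρ using hρ
  have hu' : u = ul := funext fun y => (hul y).symm
  rw [hu']
  refine hasEigenvaluesOver_of_det F hm (hG.antitone c₀) (hN c₀) (fun i => hf (c₀, i)) ul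
    (fun i => Matrix.of fun s' s => ρ i s s') (fun i s => by
      rw [hul, hρ]
      rfl) fun a ha => ?_
  -- the dual families
  choose g hgE hg using fun y => Dt.exists_dual_family W (hE' y.1) (hf y).1 (hfE y)
  have hg1 : ∏ y : Fin m × Fin P × Fin N, Matrix.det (Matrix.of fun s t =>
      W.pairing (V y.2.1) (g y.2 s) (f y.2 t)) = 1 := by
    refine prod_eq_one fun y _ => ?_
    have h4 : (Matrix.of fun s t => W.pairing (V y.2.1) (g y.2 s) (f y.2 t)) = 1 := by
      ext s t
      rw [Matrix.of_apply, hg, Matrix.one_apply]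
    rw [h4, Matrix.det_one]
  -- the operators on the factors
  obtain ⟨w, hw, hwE, hwdet⟩ := exists_slot_map W (hπ c₀) (hπE c₀) (hπp c₀) hu ha
  obtain ⟨wc, hwc⟩ : ∃ wc : ∀ c, W.H (V c) → W.H (V c), wc = Function.update π c₀ w := ⟨_, rfl⟩
  have hwcM : ∀ c, IsMapOver W.toCohomologyData F (V c) (wc c) := by
    intro c
    rw [hwc]
    by_cases hc : c = c₀
    · subst hc
      rw [Function.update_self]
      exact hw
    · rw [Function.update_of_ne hc]
      exact hπ c
  have hwcE : ∀ c y, wc c y ∈ E c := by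
    intro c
    rw [hwc]
    by_cases hc : c = c₀
    · subst hc
      rw [Function.update_self]
      exact hwE
    · rw [Function.update_of_ne hc]
      exact hπE c
  obtain ⟨z₁, hz₁, hz₁v⟩ := exists_slots W (A := power (pt k) l)
    (V := fun q => V (e.symm q).1.2.1) (w := fun q => wc _) (fun q => hwcM _) hzF
  obtain ⟨z₀, hz₀, hz₀v⟩ := exists_slots W (A := power (pt k) l)
    (V := fun q => V (e.symm q).1.2.1) (w := fun q => π _) (fun q => hπ _) hzF
  have hx0 : x ≠ 0 := by
    rintro rfl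
    have h1 := hv (fun q => g q.1.2 q.2) fun q => hgE _ _
    rw [hg1] at h1
    have h2 : extProd W.toCohomologyData (0 : W.H (power (pt k) l))
        (fun q => g (e.symm q).1.2 (e.symm q).2) = 0 := by
      have h3 := extProd_smul W (0 : K) (0 : W.H (power (pt k) l))
        (fun q => g (e.symm q).1.2 (e.symm q).2)
      rwa [zero_smul, zero_smul] at h3
    rw [h2] at h1
    have h3 : W.trL _ (z * 0) = 1 := h1
    rw [mul_zero, map_zero] at h3
    exact zero_ne_one h3
  have hz₀0 : z₀ ≠ 0 := by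
    rintro rfl
    have h1 := hz₀v x fun q => g (e.symm q).1.2 (e.symm q).2
    have h2 := hv (fun q => π _ (g q.1.2 q.2)) fun q => hπE _ _
    have h3 : ∏ y : Fin m × Fin P × Fin N, Matrix.det (Matrix.of fun s t =>
        W.pairing (V y.2.1) (π _ (g y.2 s)) (f y.2 t)) = 1 := by
      rw [← hg1]
      refine prod_congr rfl fun y _ => ?_
      congr 1
      ext s t
      rw [Matrix.of_apply, Matrix.of_apply, hπp _ _ _ (hfE _ _)]
    have h4 : W.trL _ ((0 : W.H (wordVar (pt k) V l fun q => (e.symm q).1.2.1)) *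
        extProd W.toCohomologyData x fun q => g (e.symm q).1.2 (e.symm q).2) = 1 :=
      h1.trans (h2.trans h3)
    rw [zero_mul, map_zero] at h4
    exact zero_ne_one h4
  obtain ⟨D, hD⟩ : ∃ D : K, D = (∏ i : Fin N, (Matrix.scalar (Fin (r (c₀, i))) a -
    Matrix.of fun s' s => ρ i s s').det) ^ m := ⟨_, rfl⟩
  have key : z₁ = D • z₀ := by
    refine eq_of_pairing_extProd W fun y v => ?_
    obtain ⟨v, rfl⟩ : ∃ v' : (∀ q : (Σ y : Fin m × Fin P × Fin N, Fin (r y.2)),
        W.H (V q.1.2.1)), (fun i => v' (e.symm i)) = v :=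
      ⟨(Equiv.piCongrLeft' (fun q => W.H (V q.1.2.1)) e).symm v,
        (Equiv.piCongrLeft' (fun q => W.H (V q.1.2.1)) e).apply_symm_apply v⟩
    obtain ⟨c, rfl⟩ := exists_smul_of_dim_zero W (power_pt_dim l) hx0 y
    rw [hz₁v, pairing_smul_left, hz₀v, extProd_smul, extProd_smul]
    have h1 := hv (fun q => wc _ (v q)) fun q => hwcE _ _
    have h2 := hv (fun q => π _ (v q)) fun q => hπE _ _
    have h3 : ∀ y', W.pairing (wordVar (pt k) V l fun q => (e.symm q).1.2.1) z (c • y') =
        c * W.pairing _ z y' := fun y' => Can.pairing_smul W z c y'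
    refine (h3 _).trans (((congrArg (c * ·) h1).trans ?_).trans
      (congrArg (D * ·) ((h3 _).trans (congrArg (c * ·) h2))).symm)
    change c * _ = D * (c * _)
    rw [← mul_assoc, mul_comm D c, mul_assoc]
    congr 1
    rw [hD, ← prod_blocks (K := K) (m := m) c₀, ← prod_mul_distrib]
    refine prod_congr rfl fun y _ => ?_
    obtain ⟨j, c', i⟩ := y
    by_cases hc : c' = c₀
    · subst hc
      rw [if_pos rfl, mul_comm]
      have h4 := hwdet _ (f (c', i)) (Matrix.of fun s' s => ρ i s s') (fun s => hfE (c', i) s)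
        (fun s => hρ i s) fun s => v ⟨(j, c', i), s⟩
      rw [← h4, hwc]
      simp only [Function.update_self]
    · rw [if_neg hc, _root_.one_mul, hwc]
      simp only [Function.update_of_ne hc]
  rw [← hD]
  refine hI _ ?_ z₀ hz₀ hz₀0 D ?_ (by rw [← key]; exact hz₁)
  · exact isSpanned_prodVar W hE' (isSpanned_power_pt W hE' l) _ fun i => hs _
  -- the determinants are algebraic over `F`
  have hfin : Module.Finite K (W.H (V c₀)) := (W.graded (V c₀)).finite
  let A : Module.End K (E c₀) := ul.restrict fun y hy => by rw [hul]; exact huE y hy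
  have hA : ∀ y : E c₀, ((A y : E c₀) : W.H (V c₀)) = u y := fun y => hul y
  obtain ⟨p, hp, hpA⟩ := exists_isNilpotent W (hE c₀) hu A hA
  have h1 : ∀ i : Fin N, IsAlgebraic F (Matrix.scalar (Fin (r (c₀, i))) a -
      Matrix.of fun s' s => ρ i s s').det := by
    intro i
    refine isAlgebraic_det F A hp hpA (f := fun s => (⟨f (c₀, i) s, hfE (c₀, i) s⟩ : E c₀))
      ?_ _ (fun s => ?_) ha
    · exact LinearIndependent.of_comp (E c₀).subtype (hf (c₀, i)).1
    · apply Subtype.ext
      rw [hA]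
      change u (f (c₀, i) s) = _
      rw [hρ, Submodule.coe_sum]
      rfl
  rw [hD, isAlgebraic_iff_isIntegral]
  refine IsIntegral.pow (IsIntegral.prod _ fun i _ => ?_) m
  exact isAlgebraic_iff_isIntegral.mp (h1 i)

/-- **The standard conjecture D and multiples of cycle classes.** -/
theorem standardD_of_multiples
    (hE : ∀ c, IsPieceOver W.toCohomologyData F (V c) (E c))
    (hs : ∀ c, IsSpanned W.toCohomologyData V E (V c))
    (ha : AreAnisotropicOver.{u, v, w, t} W.toCohomologyData V E F)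
    (hI : ∀ Y, IsSpanned W.toCohomologyData V E Y → HasRationalMultiples W.toCohomologyData F Y)
    (Y : SmProjVar k) (hY : IsSpanned W.toCohomologyData V E Y) : W.StandardD Y := by
  have hE' : ∀ c, IsPiece W.toCohomologyData (V c) (E c) := fun c => (hE c).isPiece
  obtain ⟨n, hn⟩ := exists_spannedBy W hY
  refine Can.standardD_of_numTrivialOrthogonal W (X := pt k) (E := E) ?_ hn
  obtain ⟨G, hF, -, D, hD, hdet⟩ := exists_related_det.{u, v, w, t} W (X := pt k)
    (standardD_power_pt W) V E hE (n := n + 2) (by omega)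
  have h1 : IsTrivial W.toCohomologyData G := by
    by_contra hne
    have h0 : ∀ c, G c (((0 + 1 : ℕ) : ℝ) / D) = ⊥ := by
      intro c
      refine ha c _ (hD.related.le c 0) ⟨fun u hu huE => ?_, ?_⟩ (hD.related.isotropic c 0)
        fun u hu huE => ?_
      · exact hD.related.correspondences c c u hu huE 0
      · intro Ω _ _ g χ hg hgE
        exact hD.related.symmetries Ω g χ hg hgE c 0
      · exact hasEigenvaluesOver_of_flags W hE hs hI hD.related (hdet hne) hu huE
    refine hne fun c a hpos => ?_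
    have hD' : (0 : ℝ) < D := by exact_mod_cast hD.pos
    obtain ⟨i, hi⟩ : ∃ i : ℕ, ⌈(D : ℝ) * a⌉ = ((i + 1 : ℕ) : ℤ) := by
      have h2 : 0 < ⌈(D : ℝ) * a⌉ := Int.ceil_pos.mpr (mul_pos hD' hpos)
      refine ⟨(⌈(D : ℝ) * a⌉ - 1).toNat, ?_⟩
      push_cast
      rw [Int.toNat_of_nonneg (by omega)]
      ring
    rw [hD.jumps c a, hi, eq_bot_iff, ← h0 c]
    exact hD.related.antitone c (Nat.zero_le i)
  have h2 := Can.numTrivialOrthogonal_of_trivial W hF.admissible h1
  rintro T z y hz ⟨m, b, p, x, c, f, a, v, hb, hv, ha, rfl⟩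
  exact h2 T z _ hz ⟨m, b, p, x, c, f, a, v, hb.trans (by omega), hv, ha, rfl⟩

end Pool.Agent.Helper11.Ro
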