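import Mathlib
import Pool.Agent.Helper11.Ro.Flags

/-!
# Flags whose determinant is a numerically trivial cycle class: the criterion
-/

universe u v w t

open CategoryTheory TensorProduct Finset

namespace Pool.Agent.Helper11.Ro

open Pool.Agent.Helper10 hiding IsAlgAut parityPart
open SmProjVar SPre Pool.Agent.Helper10.GIT Pool.Agent.Helper11.Iso Pool.Agent.Helper11.Can
open Pool.Agent.Helper11.Obs

variable {k : Type u} [Field k] {K : Type v} [Field K] [CharZero K]
  (W : WeilCohomology.{u, v, w} k K) {F : Subfield K}

/-- **Numerically trivial classes are orthogonal to all words if and only if the determinant of no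
related flags is given by a numerically trivial class with coefficients in `F`.** -/
theorem orthogonal_iff {X : SmProjVar k} (hX : ∀ n, W.StandardD (power X n)) {P : ℕ}
    (V : Fin P → SmProjVar k) (E : ∀ c, Submodule K (W.H (V c)))
    (hE : ∀ c, IsPieceOver W.toCohomologyData F (V c) (E c)) :
    (∀ n, NumTrivialOrthogonal W.toCohomologyData X V E n) ↔
      ∀ G : ∀ c : Fin P, ℕ → Submodule K (W.H (V c)),
        AreRelatedFlags.{u, v, w, t} W.toCohomologyData X V E G →
        ¬ HasNumTrivialDeterminantOver W.toCohomologyData X E G F := by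
  refine ⟨fun h G hG hdet => ?_, fun h n => ?_⟩
  · obtain ⟨N, m, b, l, r, f, e, z, x, hm, hN, hf, hz, -, hv⟩ := hdet
    exact Dt.not_hasNumTrivialDeterminant W (fun c => (hE c).isPiece) h hG.le
      ⟨N, m, b, l, r, f, e, z, x, hm, hN, hf, hz, hv⟩
  · obtain ⟨G, hF, -, D, hD, hdet⟩ := exists_related_det.{u, v, w, t} W hX V E hE
      (n := n + 2) (by omega)
    have h1 : IsTrivial W.toCohomologyData G := by
      by_contra hne
      exact h _ hD.related (hdet hne)
    have h2 := numTrivialOrthogonal_of_trivial W hF.admissible h1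
    rintro T z y hz ⟨m, b, p, x, c, f, a, v, hb, hv, ha, rfl⟩
    exact h2 T z _ hz ⟨m, b, p, x, c, f, a, v, hb.trans (by omega), hv, ha, rfl⟩

end Pool.Agent.Helper11.Ro
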