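import Mathlib
import Pool.Agent.Helper11.Ro.Thm

/-!
# The standard conjecture D, the independence of cycle classes, and degenerations
-/

universe u v w t

open CategoryTheory TensorProduct Finset

namespace Pool.Agent.Helper11.Ro

open Pool.Agent.Helper10 hiding IsAlgAut parityPart
open SmProjVar Pool.Agent.Helper11.Obs

variable {k : Type u} [Field k] {K : Type v} [Field K] [CharZero K]
  (W : WeilCohomology.{u, v, w} k K) {F : Subfield K} {P : ℕ} {V : Fin P → SmProjVar k}
  {E : Subspaces W.toCohomologyData V}

/-- independent classes do not have irrational multiples -/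
lemma rationalMultiples_of_independentOver {Y : SmProjVar k}
    (h : IndependentOver W.toCohomologyData F Y) : HasRationalMultiples W.toCohomologyData F Y := by
  intro z hz hz0 a _ ha
  by_contra haF
  have h1 : LinearIndependent F ![z, a • z] := by
    rw [LinearIndependent.pair_iff]
    intro s t hst
    have h2 : ((s : K) + (t : K) * a) • z = 0 := by
      rw [add_smul, mul_smul]
      exact hst
    have h3 : (s : K) + (t : K) * a = 0 := by
      rcases smul_eq_zero.mp h2 with h3 | h3
      · exact h3
      · exact absurd h3 hz0
    have ht : t = 0 := by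
      by_contra ht
      have ht' : (t : K) ≠ 0 := fun h4 => ht (Subtype.ext h4)
      apply haF
      have h4 : a = -(s : K) * (t : K)⁻¹ := by
        field_simp
        linear_combination h3
      rw [h4]
      exact F.mul_mem (F.neg_mem s.2) (F.inv_mem t.2)
    subst ht
    refine ⟨?_, rfl⟩
    have h4 : (s : K) = 0 := by simpa using h3
    exact Subtype.ext h4
  have h2 := h 2 ![z, a • z] (by
    intro i
    fin_cases i
    · exact hz
    · exact ha) h1
  rw [LinearIndependent.pair_iff] at h2
  have h3 := (h2 a (-1) (by rw [neg_one_smul, add_neg_cancel])).2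
  exact one_ne_zero (neg_eq_zero.mp h3)

/-- **The standard conjecture D, independence, and degenerations.** -/
theorem criterion (hE : ∀ c, IsPieceOver W.toCohomologyData F (V c) (E c))
    (hs : ∀ c, IsSpanned W.toCohomologyData V E (V c))
    (ha : AreAnisotropicOver.{u, v, w, t} W.toCohomologyData V E F) :
    [∀ Y, IsSpanned W.toCohomologyData V E Y → W.StandardD Y,
      ∀ Y, IsSpanned W.toCohomologyData V E Y → IndependentOver W.toCohomologyData F Y,
      ∀ Y, IsSpanned W.toCohomologyData V E Y → HasRationalMultiples W.toCohomologyData F Y,
      ∀ Y, IsSpanned W.toCohomologyData V E Y →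
        ∃ (k' : Type u) (_ : Field k') (W' : WeilCohomology.{u, v, w} k' K),
          DegeneratesToStandardD W.toCohomologyData W'.toCohomologyData Y].TFAE := by
  tfae_have 1 → 4 := fun h Y hY => ⟨k, inferInstance, W, degenerates_self W (h Y hY)⟩
  tfae_have 4 → 2 := by
    intro h Y hY
    obtain ⟨k', hk', W', h'⟩ := h Y hY
    exact Degen.independentOver_of_degeneration h' F
  tfae_have 2 → 3 := fun h Y hY => rationalMultiples_of_independentOver W (h Y hY)
  tfae_have 3 → 1 := fun h Y hY => standardD_of_multiples W hE hs ha h Y hY
  tfae_finish

end Pool.Agent.Helper11.Ro
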